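import Pool.Agent.H51.EM.Targets

/-! Row `SML` of the board em_modules: the zeros not very near `X0` do not matter
(adapted from `Pool.Agent.H65.EI.SML`). -/

set_option autoImplicit false

namespace Pool.Agent.H77.EM.SML

open Pool.Agent.H51.EM Polynomial Finset
open Pool.Agent.H51.EI (Disc toC ev plen rts vv FR FTI)
open Pool.Agent.H25.EE (GG VJ thr phi bN bH)

private theorem sumle (S : Multiset ℂ) (f : ℂ → ℝ) (c : ℝ) (h : ∀ β ∈ S, f β ≤ c) :
    (S.map f).sum ≤ (Multiset.card S : ℝ) * c := by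
  have h1 := Multiset.sum_le_card_nsmul (S.map f) c (by
    intro x hx
    obtain ⟨β, hβ, rfl⟩ := Multiset.mem_map.1 hx
    exact h β hβ)
  rw [Multiset.card_map, nsmul_eq_mul] at h1
  exact h1

/-- splitting the sum at a threshold -/
private theorem split (vv : ℂ → ℝ) (S : Multiset ℂ) (a b : ℝ) (hab : a ≤ b) :
    ((S.filter fun β => vv β < b).map vv).sum =
      ((S.filter fun β => vv β < a).map vv).sum +
        (((S.filter fun β => a ≤ vv β).filter fun β => vv β < b).map vv).sum := by
  induction S using Multiset.induction_on with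
  | empty => simp
  | cons x S ih =>
    by_cases h1 : vv x < a
    · have h2 : vv x < b := h1.trans_le hab
      have h3 : ¬ a ≤ vv x := not_le.2 h1
      rw [Multiset.filter_cons_of_pos (p := fun β => vv β < b) _ h2,
        Multiset.filter_cons_of_pos (p := fun β => vv β < a) _ h1,
        Multiset.filter_cons_of_neg (p := fun β => a ≤ vv β) _ h3,
        Multiset.map_cons, Multiset.sum_cons, Multiset.map_cons, Multiset.sum_cons, ih]
      ring
    · have h3 : a ≤ vv x := not_lt.1 h1
      rw [Multiset.filter_cons_of_neg (p := fun β => vv β < a) _ h1,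
        Multiset.filter_cons_of_pos (p := fun β => a ≤ vv β) _ h3]
      by_cases h2 : vv x < b
      · rw [Multiset.filter_cons_of_pos (p := fun β => vv β < b) _ h2,
          Multiset.filter_cons_of_pos (p := fun β => vv β < b) _ h2,
          Multiset.map_cons, Multiset.sum_cons, Multiset.map_cons, Multiset.sum_cons, ih]
        ring
      · rw [Multiset.filter_cons_of_neg (p := fun β => vv β < b) _ h2,
          Multiset.filter_cons_of_neg (p := fun β => vv β < b) _ h2, ih]

private theorem thr_mono {a b : ℕ} (h : a ≤ b) : thr a ≤ thr b := by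
  unfold thr
  rcases Nat.eq_zero_or_pos a with h0 | h0
  · subst h0
    have h1 := Real.log_natCast_nonneg b
    have h2 : (0 : ℝ) ≤ 713 / 200000 * (b : ℝ) ^ 4 * Real.log b := by positivity
    simpa using h2
  · have h1 : (a : ℝ) ≤ (b : ℝ) := by exact_mod_cast h
    have h2 : Real.log a ≤ Real.log b := Real.log_le_log (by exact_mod_cast h0) h1
    have h3 := Real.log_natCast_nonneg a
    have h4 : (a : ℝ) ^ 4 ≤ (b : ℝ) ^ 4 := pow_le_pow_left₀ (by positivity) h1 4
    have h5 : (0 : ℝ) ≤ (b : ℝ) ^ 4 := by positivity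
    exact mul_le_mul (mul_le_mul_of_nonneg_left h4 (by norm_num)) h2 h3 (by positivity)

private theorem thr_nonneg (a : ℕ) : 0 ≤ thr a := by
  unfold thr
  have h1 := Real.log_natCast_nonneg a
  positivity

theorem pf_SML (hCNT : Pool.Agent.H51.EI.T_CNT) : T_SML := by
  intro O X0 c ε i0 Jt hDisc hFR hc hε hε1 hi0 hFT J m D hJ hJt hm hD hN hL
  have hJr : (2 : ℝ) ≤ (J : ℝ) := by exact_mod_cast hJ
  have hlogJ : 0 < Real.log J := Real.log_pos (by linarith)
  have hcard : (Multiset.card (rts D) : ℝ) ≤ c * (J : ℝ) ^ 6 := by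
    have h1 : Multiset.card (rts D) ≤ D.natDegree := by
      unfold rts toC
      exact (Polynomial.card_roots' _).trans Polynomial.natDegree_map_le
    have h2 : (Multiset.card (rts D) : ℝ) ≤ (D.natDegree : ℝ) := by exact_mod_cast h1
    have h3 : bN J ≤ (J : ℝ) ^ 6 := by
      unfold bN
      have : (0 : ℝ) ≤ (J : ℝ) ^ 6 := by positivity
      linarith
    exact h2.trans (hN.trans (mul_le_mul_of_nonneg_left h3 hc.le))
  have base : ∀ m : ℕ, m ≤ i0 → (((rts D).filter fun β => vv X0 β < thr (2 ^ m)).map (vv X0)).sum ≤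
      c * thr (2 ^ i0) * (J : ℝ) ^ 6 := by
    intro m hm
    have h1 := sumle ((rts D).filter fun β => vv X0 β < thr (2 ^ m)) (vv X0) (thr (2 ^ i0)) (by
      intro β hβ
      rw [Multiset.mem_filter] at hβ
      exact hβ.2.le.trans (thr_mono (Nat.pow_le_pow_right (by norm_num) hm)))
    have h2 : (Multiset.card ((rts D).filter fun β => vv X0 β < thr (2 ^ m)) : ℝ) ≤
        (Multiset.card (rts D) : ℝ) := by
      exact_mod_cast Multiset.card_le_card (Multiset.filter_le _ _)
    have h3 := thr_nonneg (2 ^ i0)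
    calc _ ≤ _ := h1
      _ ≤ (c * (J : ℝ) ^ 6) * thr (2 ^ i0) := mul_le_mul_of_nonneg_right (h2.trans hcard) h3
      _ = _ := by ring
  have hcast : ∀ m : ℕ, ((2 ^ m : ℕ) : ℝ) = (2 : ℝ) ^ m := fun m => by push_cast; ring
  revert hm
  induction m with
  | zero =>
    intro _
    have h1 := base 0 (Nat.zero_le _)
    have h2 : (0 : ℝ) ≤ 3 / 20000 * ((2 : ℝ) ^ 0) ^ 2 * (J : ℝ) ^ 6 * Real.log J := by positivity
    exact h1.trans (le_add_of_nonneg_right h2)
  | succ m ih =>
    intro hm
    rcases Nat.lt_or_ge m i0 with h | h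
    · have h1 := base (m + 1) (by omega)
      have h2 : (0 : ℝ) ≤ 3 / 20000 * ((2 : ℝ) ^ (m + 1)) ^ 2 * (J : ℝ) ^ 6 * Real.log J := by
        positivity
      linarith
    · have hm1 : 2 ^ m ≤ J := (Nat.pow_le_pow_right (by norm_num) (Nat.le_succ m)).trans hm
      have ih' := ih hm1
      have hm0 : 1 ≤ m := by omega
      have h2m : 2 ≤ 2 ^ m := by
        calc 2 = 2 ^ 1 := by norm_num
          _ ≤ 2 ^ m := Nat.pow_le_pow_right (by norm_num) hm0
      have hJ0 : 2 ^ i0 ≤ 2 ^ m := Nat.pow_le_pow_right (by norm_num) h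
      have c1 := hCNT O X0 c ε J (2 ^ m) D hDisc hFR hc hε hε1 h2m hm1
        (hFT _ hJ0 (hm1.trans hJt)) hD hN hL
      rw [split (vv X0) (rts D) (thr (2 ^ m)) (thr (2 ^ (m + 1)))
        (thr_mono (Nat.pow_le_pow_right (by norm_num) (Nat.le_succ m)))]
      have s1 := sumle (((rts D).filter fun β => thr (2 ^ m) ≤ vv X0 β).filter
        fun β => vv X0 β < thr (2 ^ (m + 1))) (vv X0) (thr (2 ^ (m + 1))) (by
          intro β hβ
          rw [Multiset.mem_filter] at hβ
          exact hβ.2.le)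
      have s2 : (Multiset.card (((rts D).filter fun β => thr (2 ^ m) ≤ vv X0 β).filter
          fun β => vv X0 β < thr (2 ^ (m + 1))) : ℝ) ≤
          (Multiset.card ((rts D).filter fun β => thr (2 ^ m) ≤ vv X0 β) : ℝ) := by
        exact_mod_cast Multiset.card_le_card (Multiset.filter_le _ _)
      set n : ℝ := (Multiset.card ((rts D).filter fun β => thr (2 ^ m) ≤ vv X0 β) : ℝ) with hn
      have hn0 : 0 ≤ n := by rw [hn]; positivity
      have s3 := s1.trans (mul_le_mul_of_nonneg_right s2 (thr_nonneg (2 ^ (m + 1))))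
      -- the threshold
      have hlg : Real.log ((2 ^ m : ℕ) : ℝ) = m * Real.log 2 := by
        rw [hcast, Real.log_pow]
      have hl2 : 0 < Real.log 2 := Real.log_pos (by norm_num)
      have hmr : (1 : ℝ) ≤ (m : ℝ) := by exact_mod_cast hm0
      have t1 : thr (2 ^ (m + 1)) ≤
          713 / 200000 * 32 * ((2 : ℝ) ^ m) ^ 4 * (m * Real.log 2) := by
        unfold thr
        rw [hcast, Real.log_pow]
        have e1 : ((2 : ℝ) ^ (m + 1)) ^ 4 = 16 * ((2 : ℝ) ^ m) ^ 4 := by ring
        rw [e1]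
        push_cast
        have h4 : (0 : ℝ) ≤ ((2 : ℝ) ^ m) ^ 4 * Real.log 2 := by positivity
        nlinarith
      rw [hlg, hcast] at c1
      have t2 : n * thr (2 ^ (m + 1)) ≤
          713 / 200000 * 32 * ((2 : ℝ) ^ m) ^ 2 * (3 / 1000 * (J : ℝ) ^ 6 * Real.log J) := by
        have h5 : n * thr (2 ^ (m + 1)) ≤
            n * (713 / 200000 * 32 * ((2 : ℝ) ^ m) ^ 4 * (m * Real.log 2)) :=
          mul_le_mul_of_nonneg_left t1 hn0
        have h6 : n * (713 / 200000 * 32 * ((2 : ℝ) ^ m) ^ 4 * (m * Real.log 2)) =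
            713 / 200000 * 32 * ((2 : ℝ) ^ m) ^ 2 * (n * (((2 : ℝ) ^ m) ^ 2 * (m * Real.log 2))) := by
          ring
        rw [h6] at h5
        refine h5.trans (mul_le_mul_of_nonneg_left c1 (by positivity))
      have e2 : ((2 : ℝ) ^ (m + 1)) ^ 2 = 4 * ((2 : ℝ) ^ m) ^ 2 := by ring
      have t3 : (0 : ℝ) ≤ ((2 : ℝ) ^ m) ^ 2 * ((J : ℝ) ^ 6 * Real.log J) := by positivity
      rw [e2]
      nlinarith

end Pool.Agent.H77.EM.SML
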